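import Mathlib
import Pool.Agent.Q74.Diff.Rec

/-!
# Unbounded solutions of `x (n+1) = x n / (C x (n-1) + x (n-2))`

With `y = log x` the equation reads `y (n+3) = y (n+2) - log (C e ^ y (n+1) + e ^ y n)`, and
`log (C e ^ v + e ^ u) = max v u + O(1)`.  A return section is exhibited on which `y (n+1)` grows at
least geometrically.
-/

set_option autoImplicit false

namespace Pool.Agent.Results.MP_2553b2_an.Unbounded

open Pool.Agent.Q74.Diff Real

/-- one return to the section -/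
theorem step {c : ℝ} (hc : 1 ≤ c) (M : ℝ → ℝ → ℝ) (hM1 : ∀ v u, v - c ≤ M v u)
    (hM2 : ∀ v u, u - c ≤ M v u) (hM3 : ∀ v u, u ≤ v → M v u ≤ v + c)
    (hM4 : ∀ v u, v ≤ u → M v u ≤ u + c) (y : ℕ → ℝ)
    (hy : ∀ n, y (n + 3) = y (n + 2) - M (y (n + 1)) (y n)) (n : ℕ)
    (h0 : y n ≤ y (n + 1) + 2 * c) (h1 : y (n + 2) ≤ y (n + 1) + 2 * c) (h2 : -(2 * c) ≤ y (n + 2))
    (hS : 200 * c ≤ y (n + 1)) :
    ∃ m, y m ≤ y (m + 1) + 2 * c ∧ y (m + 2) ≤ y (m + 1) + 2 * c ∧ -(2 * c) ≤ y (m + 2) ∧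
      y (n + 1) + 1 ≤ y (m + 1) := by
  have e3 := hy n
  have e4 : y (n + 4) = y (n + 3) - M (y (n + 2)) (y (n + 1)) := hy (n + 1)
  have e5 : y (n + 5) = y (n + 4) - M (y (n + 3)) (y (n + 2)) := hy (n + 2)
  have e6 : y (n + 6) = y (n + 5) - M (y (n + 4)) (y (n + 3)) := hy (n + 3)
  have e7 : y (n + 7) = y (n + 6) - M (y (n + 5)) (y (n + 4)) := hy (n + 4)
  have e8 : y (n + 8) = y (n + 7) - M (y (n + 6)) (y (n + 5)) := hy (n + 5)
  have e9 : y (n + 9) = y (n + 8) - M (y (n + 7)) (y (n + 6)) := hy (n + 6)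
  have e10 : y (n + 10) = y (n + 9) - M (y (n + 8)) (y (n + 7)) := hy (n + 7)
  have l3 := hM1 (y (n + 1)) (y n)
  have u3 : M (y (n + 1)) (y n) ≤ y (n + 1) + 3 * c := by
    rcases le_total (y n) (y (n + 1)) with h | h
    · linarith [hM3 _ _ h]
    · linarith [hM4 _ _ h]
  have l4 := hM2 (y (n + 2)) (y (n + 1))
  have u4 : M (y (n + 2)) (y (n + 1)) ≤ y (n + 1) + 3 * c := by
    rcases le_total (y (n + 1)) (y (n + 2)) with h | h
    · linarith [hM3 _ _ h]
    · linarith [hM4 _ _ h]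
  have l5 := hM2 (y (n + 3)) (y (n + 2))
  have u5 := hM4 (y (n + 3)) (y (n + 2)) (by linarith)
  have l6 := hM2 (y (n + 4)) (y (n + 3))
  have u6 := hM4 (y (n + 4)) (y (n + 3)) (by linarith)
  have l7 := hM2 (y (n + 5)) (y (n + 4))
  have u7 : M (y (n + 5)) (y (n + 4)) ≤ y (n + 2) - 2 * y (n + 1) + 6 * c := by
    rcases le_total (y (n + 4)) (y (n + 5)) with h | h
    · linarith [hM3 _ _ h]
    · linarith [hM4 _ _ h]
  have l8 := hM1 (y (n + 6)) (y (n + 5))
  have u8 : M (y (n + 6)) (y (n + 5)) ≤ -y (n + 1) - y (n + 2) + 8 * c := by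
    rcases le_total (y (n + 5)) (y (n + 6)) with h | h
    · linarith [hM3 _ _ h]
    · linarith [hM4 _ _ h]
  have l9 := hM1 (y (n + 7)) (y (n + 6))
  have u9 := hM3 (y (n + 7)) (y (n + 6)) (by linarith)
  rcases le_total 0 (y (n + 7)) with h7 | h7
  · refine ⟨n + 7, ?_, ?_, ?_, ?_⟩
    · show y (n + 7) ≤ y (n + 8) + 2 * c
      linarith
    · show y (n + 9) ≤ y (n + 8) + 2 * c
      linarith
    · show -(2 * c) ≤ y (n + 9)
      linarith
    · show y (n + 1) + 1 ≤ y (n + 8)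
      linarith
  · have l10 := hM1 (y (n + 8)) (y (n + 7))
    have u10 := hM3 (y (n + 8)) (y (n + 7)) (by linarith)
    refine ⟨n + 8, ?_, ?_, ?_, ?_⟩
    · show y (n + 8) ≤ y (n + 9) + 2 * c
      linarith
    · show y (n + 10) ≤ y (n + 9) + 2 * c
      linarith
    · show -(2 * c) ≤ y (n + 10)
      linarith
    · show y (n + 1) + 1 ≤ y (n + 9)
      linarith

/-- For every `C > 0` the recursion has an unbounded positive solution (`x n` is the term of index
`n - 2`). -/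
theorem result (C : ℝ) (hC : 0 < C) :
    ∃ x : ℕ → ℝ, (∀ n, 0 < x n) ∧ (∀ n, x (n + 3) = x (n + 2) / (C * x (n + 1) + x n)) ∧
      ¬ BddAbove (Set.range x) := by
  set c : ℝ := |log C| + 1 with hcdef
  have hc : 1 ≤ c := by linarith [abs_nonneg (log C)]
  obtain ⟨x, hx0, hx1, hx2, hx⟩ :=
    exists_seq (fun a b d => d / (C * b + a)) (exp (200 * c)) (exp (200 * c)) 1
  have hpos : ∀ n, 0 < x n := by
    apply pos_of_rec
    · rw [hx0]; positivity
    · rw [hx1]; positivity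
    · rw [hx2]; positivity
    · intro n a b c
      rw [hx]
      positivity
  refine ⟨x, hpos, hx, ?_⟩
  set M : ℝ → ℝ → ℝ := fun v u => log (C * exp v + exp u) with hM
  have hMb : ∀ v u, max v u - c ≤ M v u ∧ M v u ≤ max v u + c := fun v u =>
    log_add_bounds hC v u
  have hM1 : ∀ v u, v - c ≤ M v u := fun v u => by linarith [(hMb v u).1, le_max_left v u]
  have hM2 : ∀ v u, u - c ≤ M v u := fun v u => by linarith [(hMb v u).1, le_max_right v u]
  have hM3 : ∀ v u, u ≤ v → M v u ≤ v + c := fun v u h => by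
    have := (hMb v u).2
    rwa [max_eq_left h] at this
  have hM4 : ∀ v u, v ≤ u → M v u ≤ u + c := fun v u h => by
    have := (hMb v u).2
    rwa [max_eq_right h] at this
  set y : ℕ → ℝ := fun n => log (x n) with hydef
  have hy : ∀ n, y (n + 3) = y (n + 2) - M (y (n + 1)) (y n) := by
    intro n
    have h0 := hpos n
    have h1 := hpos (n + 1)
    have h2 := hpos (n + 2)
    simp only [hydef, hM]
    rw [hx n, log_div h2.ne' (by positivity), exp_log h1, exp_log h0]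
  have key : ∀ k : ℕ, ∃ m, y m ≤ y (m + 1) + 2 * c ∧ y (m + 2) ≤ y (m + 1) + 2 * c ∧
      -(2 * c) ≤ y (m + 2) ∧ 200 * c + k ≤ y (m + 1) := by
    intro k
    induction k with
    | zero =>
      refine ⟨0, ?_⟩
      have y0 : y 0 = 200 * c := by simp only [hydef, hx0, log_exp]
      have y1 : y (0 + 1) = 200 * c := by simp only [hydef, Nat.zero_add, hx1, log_exp]
      have y2 : y (0 + 2) = 0 := by simp only [hydef, Nat.zero_add, hx2, log_one]
      rw [y0, y1, y2]
      push_cast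
      refine ⟨?_, ?_, ?_, ?_⟩ <;> linarith
    | succ k ih =>
      obtain ⟨m, h0, h1, h2, hS⟩ := ih
      have hk : (0 : ℝ) ≤ k := k.cast_nonneg
      obtain ⟨m', g0, g1, g2, gS⟩ :=
        step hc M hM1 hM2 hM3 hM4 y hy m h0 h1 h2 (by linarith)
      refine ⟨m', g0, g1, g2, ?_⟩
      push_cast
      linarith
  rintro ⟨B, hB⟩
  obtain ⟨k, hk⟩ := exists_nat_gt B
  obtain ⟨m, h0, h1, h2, hS⟩ := key k
  have h6 : x (m + 1) ≤ B := hB ⟨_, rfl⟩
  have h7 : y (m + 1) ≤ x (m + 1) := by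
    have := log_le_sub_one_of_pos (hpos (m + 1))
    simp only [hydef]
    linarith
  linarith

end Pool.Agent.Results.MP_2553b2_an.Unbounded
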